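import Pool.Agent.helper51.NP.Spec

/-!
# Module M4E of project np: (MP_5628fe_nt)

Expansion of the fourth power of the sieve weight.
-/

set_option autoImplicit false

namespace NPC

open Finset Real ArithmeticFunction Pool.Agent.helper39.MT Pool.Agent.helper85.FC

/-- The union of two labels. -/
def M4E_or {k : ℕ} (a b : Option (Fin k)) : Option (Fin k) := if a = none then b else a

/-- The local weight. -/
noncomputable def M4E_w {k : ℕ} (a : Option (Fin k)) : ℝ := if a = none then 1 else 6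

/-- The local indicator. -/
noncomputable def M4E_i {k : ℕ} (a e : Option (Fin k)) : ℝ :=
  if a = none then 1 else if e = a then 1 else 0

/-- The local term. -/
noncomputable def M4E_loc {k : ℕ} (v e a b : Option (Fin k)) : ℝ :=
  (if M4E_or a b = v then 1 else 0) * (M4E_w a * M4E_i a e) * (M4E_w b * M4E_i b e)

lemma M4E_local {k : ℕ} (v e : Option (Fin k)) :
    ∑ a, ∑ b, M4E_loc v e a b = (if v = none then 1 else 48) * M4E_i v e := by
  unfold M4E_loc M4E_or M4E_w M4E_i
  rcases e with _ | l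
  · simp only [Fintype.sum_option]
    rcases v with _ | j
    · simp
    · simp
  · have h1 : ∀ a : Option (Fin k), a ≠ none → a ≠ some l →
        (if a = none then (1 : ℝ) else if some l = a then 1 else 0) = 0 := by
      intro a h1 h2
      rw [if_neg h1, if_neg (fun h => h2 h.symm)]
    have hs : ∀ f : Option (Fin k) → ℝ, (∀ a, a ≠ none → a ≠ some l → f a = 0) →
        ∑ a, f a = f none + f (some l) := by
      intro f hf
      rw [Fintype.sum_option]
      congr 1
      rw [Finset.sum_eq_single l]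
      · intro b _ hb
        exact hf _ (by simp) (by simpa using hb)
      · intro h
        exact absurd (Finset.mem_univ l) h
    rw [hs]
    · rw [hs, hs]
      · rcases v with _ | j
        · simp
        · by_cases hj : l = j
          · subst hj
            simp
            norm_num
          · have hj' : ¬ (some l = some j) := by simpa using hj
            simp [hj]
      · intro b hb1 hb2
        rw [h1 b hb1 hb2]
        ring
      · intro b hb1 hb2
        rw [h1 b hb1 hb2]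
        ring
    · intro a ha1 ha2
      refine Finset.sum_eq_zero fun b _ => ?_
      rw [h1 a ha1 ha2]
      ring

lemma M4E_w_nonneg {k : ℕ} (a : Option (Fin k)) : 0 ≤ M4E_w a := by
  unfold M4E_w
  split_ifs <;> norm_num

lemma M4E_i_nonneg {k : ℕ} (a e : Option (Fin k)) : 0 ≤ M4E_i a e := by
  unfold M4E_i
  split_ifs <;> norm_num

lemma M4E_loc_nonneg {k : ℕ} (v e a b : Option (Fin k)) : 0 ≤ M4E_loc v e a b := by
  unfold M4E_loc
  refine mul_nonneg (mul_nonneg ?_ (mul_nonneg (M4E_w_nonneg _) (M4E_i_nonneg _ _)))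
    (mul_nonneg (M4E_w_nonneg _) (M4E_i_nonneg _ _))
  split_ifs <;> norm_num

theorem M4E : M4E_stmt := by
  classical
  intro ι _ _ k pr y Y hpr hy hyY e
  obtain ⟨c, hc1, hc2, hc3⟩ := FF_expand pr hpr y hy
  set P : ℝ := ∏ p, (1 + (k : ℝ) / ((pr p : ℝ) - 1)) ^ 2 with hP
  have hP0 : 0 ≤ P := prod_nonneg fun p _ => sq_nonneg _
  have hpr1 : ∀ p, 1 ≤ pr p := fun p => le_trans (by omega) (hpr p)
  have hind : ∀ τ : ι → Option (Fin k), ind τ e = ∏ p, M4E_i (τ p) (e p) := fun τ => rfl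
  have hind0 : ∀ τ : ι → Option (Fin k), 0 ≤ ind τ e := fun τ => by
    rw [hind]
    exact prod_nonneg fun p _ => M4E_i_nonneg _ _
  have hpow : ∀ (t : ℝ) (τ : ι → Option (Fin k)),
      t ^ (#{p | τ p ≠ none}) = ∏ p, (if τ p = none then 1 else t) := by
    intro t τ
    rw [← prod_const, Finset.prod_filter]
    refine prod_congr rfl fun p _ => ?_
    by_cases h : τ p = none
    · simp [h]
    · simp [h]
  have hc : ∀ τ, |c τ| ≤ P * ∏ p, M4E_w (τ p) := by
    intro τ
    refine (hc2 τ).trans (le_of_eq ?_)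
    rw [hpow 6 τ]
    rfl
  have hdd2 : ∀ τ, c τ ≠ 0 → (dd pr τ : ℝ) ≤ Y ^ 2 := by
    intro τ hτ
    obtain ⟨σ, σ', hσ, hσ', hsub⟩ := hc3 τ hτ
    have h4 := T3_dd_le_mul pr hpr1 τ σ σ' hsub
    have h5 : (dd pr τ : ℝ) ≤ (dd pr σ : ℝ) * (dd pr σ' : ℝ) := by exact_mod_cast h4
    have hY : 0 ≤ Y := (Nat.cast_nonneg _).trans (hyY σ hσ)
    refine h5.trans ((mul_le_mul (hyY σ hσ) (hyY σ' hσ') (Nat.cast_nonneg _) hY).trans (le_of_eq ?_))
    ring
  have hdd : ∀ τ τ' : ι → Option (Fin k), c τ ≠ 0 → c τ' ≠ 0 →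
      (dd pr (fun p => M4E_or (τ p) (τ' p)) : ℝ) ≤ Y ^ 4 := by
    intro τ τ' hτ hτ'
    have h4 := T3_dd_le_mul pr hpr1 (fun p => M4E_or (τ p) (τ' p)) τ τ' (by
      intro p hp
      by_cases h : τ p = none
      · right
        simpa [M4E_or, h] using hp
      · left
        exact h)
    have h5 : (dd pr (fun p => M4E_or (τ p) (τ' p)) : ℝ) ≤ (dd pr τ : ℝ) * (dd pr τ' : ℝ) := by
      exact_mod_cast h4
    refine h5.trans ((mul_le_mul (hdd2 τ hτ) (hdd2 τ' hτ') (Nat.cast_nonneg _)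
      (sq_nonneg _)).trans (le_of_eq ?_))
    ring
  have key1 : FF pr y e ^ 4 ≤ ∑ τ, ∑ τ', (|c τ| * ind τ e) * (|c τ'| * ind τ' e) := by
    have h1 : FF pr y e ^ 4 = (∑ τ, c τ * ind τ e) ^ 2 := by
      rw [← hc1 e]
      ring
    rw [h1, ← Finset.sum_mul_sum, ← sq]
    refine sq_le_sq' ?_ ?_
    · rw [neg_le]
      rw [← Finset.sum_neg_distrib]
      refine Finset.sum_le_sum fun τ _ => ?_
      rw [← neg_mul]
      exact mul_le_mul_of_nonneg_right (neg_le_abs _) (hind0 τ)
    · refine Finset.sum_le_sum fun τ _ => ?_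
      exact mul_le_mul_of_nonneg_right (le_abs_self _) (hind0 τ)
  have key2 : ∀ τ τ' : ι → Option (Fin k), (|c τ| * ind τ e) * (|c τ'| * ind τ' e) ≤
      ∑ υ : ι → Option (Fin k), (if (dd pr υ : ℝ) ≤ Y ^ 4 then P ^ 2 else 0) *
        ∏ p, M4E_loc (υ p) (e p) (τ p) (τ' p) := by
    intro τ τ'
    have hnn : ∀ υ : ι → Option (Fin k), 0 ≤ (if (dd pr υ : ℝ) ≤ Y ^ 4 then P ^ 2 else 0) *
        ∏ p, M4E_loc (υ p) (e p) (τ p) (τ' p) := by
      intro υ
      refine mul_nonneg ?_ (prod_nonneg fun p _ => M4E_loc_nonneg _ _ _ _)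
      split_ifs
      · positivity
      · exact le_rfl
    by_cases h0 : c τ = 0
    · rw [h0]
      simp only [abs_zero, zero_mul]
      exact sum_nonneg fun υ _ => hnn υ
    by_cases h0' : c τ' = 0
    · rw [h0']
      simp only [abs_zero, zero_mul, mul_zero]
      exact sum_nonneg fun υ _ => hnn υ
    refine le_trans ?_ (single_le_sum (fun υ _ => hnn υ)
      (mem_univ (fun p => M4E_or (τ p) (τ' p))))
    rw [if_pos (hdd τ τ' h0 h0')]
    have h2 : ∏ p, M4E_loc (M4E_or (τ p) (τ' p)) (e p) (τ p) (τ' p) =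
        ((∏ p, M4E_w (τ p)) * ind τ e) * ((∏ p, M4E_w (τ' p)) * ind τ' e) := by
      rw [hind τ, hind τ', ← prod_mul_distrib, ← prod_mul_distrib, ← prod_mul_distrib]
      refine prod_congr rfl fun p _ => ?_
      unfold M4E_loc
      rw [if_pos rfl, one_mul]
    have h3 : P ^ 2 * ∏ p, M4E_loc (M4E_or (τ p) (τ' p)) (e p) (τ p) (τ' p) =
        ((P * ∏ p, M4E_w (τ p)) * ind τ e) * ((P * ∏ p, M4E_w (τ' p)) * ind τ' e) := by
      rw [h2]
      ring
    rw [h3]
    exact mul_le_mul (mul_le_mul_of_nonneg_right (hc τ) (hind0 τ))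
      (mul_le_mul_of_nonneg_right (hc τ') (hind0 τ'))
      (mul_nonneg (abs_nonneg _) (hind0 τ'))
      (mul_nonneg (mul_nonneg hP0 (prod_nonneg fun p _ => M4E_w_nonneg _)) (hind0 τ))
  have key3 : ∀ υ : ι → Option (Fin k),
      ∑ τ : ι → Option (Fin k), ∑ τ' : ι → Option (Fin k),
        ∏ p, M4E_loc (υ p) (e p) (τ p) (τ' p) = 48 ^ (#{p | υ p ≠ none}) * ind υ e := by
    intro υ
    rw [TR1.sum_pi2 fun p s s' => M4E_loc (υ p) (e p) s s', hpow 48 υ, hind υ, ← prod_mul_distrib]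
    exact prod_congr rfl fun p _ => M4E_local _ _
  calc FF pr y e ^ 4 ≤ ∑ τ, ∑ τ', (|c τ| * ind τ e) * (|c τ'| * ind τ' e) := key1
    _ ≤ ∑ τ : ι → Option (Fin k), ∑ τ' : ι → Option (Fin k), ∑ υ : ι → Option (Fin k),
        (if (dd pr υ : ℝ) ≤ Y ^ 4 then P ^ 2 else 0) *
          ∏ p, M4E_loc (υ p) (e p) (τ p) (τ' p) :=
        Finset.sum_le_sum fun τ _ => Finset.sum_le_sum fun τ' _ => key2 τ τ'
    _ = ∑ υ : ι → Option (Fin k), (if (dd pr υ : ℝ) ≤ Y ^ 4 then P ^ 2 else 0) *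
          (48 ^ (#{p | υ p ≠ none}) * ind υ e) := by
        rw [sum_congr rfl fun τ _ => sum_comm, sum_comm]
        refine sum_congr rfl fun υ _ => ?_
        rw [← key3 υ, mul_sum]
        refine sum_congr rfl fun τ _ => ?_
        rw [mul_sum]
    _ = ∑ υ : ι → Option (Fin k) with (dd pr υ : ℝ) ≤ Y ^ 4,
          P ^ 2 * 48 ^ (#{p | υ p ≠ none}) * ind υ e := by
        rw [sum_filter]
        refine sum_congr rfl fun υ _ => ?_
        split_ifs
        · ring
        · ring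

end NPC
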